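import Pool.Agent.helper16.LW.Spec

/-!
# Project lw: part TAI, the tail of the Gaussian
-/

set_option autoImplicit false

open Complex MeasureTheory

namespace Pool.Agent.LW

open Pool.Agent.ZD Pool.Agent.helper84.DM Pool.Agent.helper78.ED Pool.Agent.DH

lemma TAI_gs_nonneg (s : ℝ) : 0 ≤ gs s := by unfold gs; positivity

lemma TAI_gs_le (s : ℝ) : gs s ≤ Real.exp (-(s ^ 2 / 2)) := by
  unfold gs
  apply div_le_self (Real.exp_pos _).le
  rw [Real.one_le_sqrt]
  nlinarith [Real.pi_gt_three]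

lemma TAI_gs_cont : Continuous gs := by
  unfold gs
  fun_prop

lemma TAI_exp (ε : ℝ) (hε : 0 < ε) : ∃ K : ℝ, 1 ≤ K ∧ ∀ T : ℝ, 1 ≤ T →
    128 * T ^ 4 ≤ Real.exp ((K * T ^ ε) ^ 2 / 4) := by
  obtain ⟨k, hk⟩ := exists_nat_ge (2 / ε)
  have hk1 : 1 ≤ k := by
    by_contra h
    have : k = 0 := by omega
    subst this
    have : 0 < 2 / ε := by positivity
    push_cast at hk
    linarith
  have hfac : (1 : ℝ) ≤ (k.factorial : ℝ) := by exact_mod_cast Nat.one_le_iff_ne_zero.2 (Nat.factorial_ne_zero k)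
  have h4 : (1 : ℝ) ≤ 4 ^ k := one_le_pow₀ (by norm_num)
  set K : ℝ := 128 * 4 ^ k * k.factorial with hK
  have hK1 : 1 ≤ K := by
    have : (1 : ℝ) ≤ 4 ^ k * k.factorial := by nlinarith
    rw [hK]; nlinarith
  refine ⟨K, hK1, ?_⟩
  intro T hT
  have hT0 : 0 < T := by linarith
  have hx : (0 : ℝ) ≤ (K * T ^ ε) ^ 2 / 4 := by positivity
  refine le_trans ?_ (Real.pow_div_factorial_le_exp _ hx k)
  rw [le_div_iff₀ (by positivity)]
  have h1 : ((K * T ^ ε) ^ 2 / 4) ^ k = (K ^ 2) ^ k * ((T ^ ε) ^ 2) ^ k / 4 ^ k := by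
    rw [div_pow, mul_pow, mul_pow]
  have h2 : T ^ 4 ≤ ((T ^ ε) ^ 2) ^ k := by
    rw [← Real.rpow_natCast, ← Real.rpow_natCast, ← Real.rpow_natCast, ← Real.rpow_mul hT0.le,
      ← Real.rpow_mul hT0.le]
    apply Real.rpow_le_rpow_of_exponent_le hT
    rw [div_le_iff₀ hε] at hk
    push_cast
    nlinarith
  have h3 : K ≤ (K ^ 2) ^ k := by
    have h5 : K ≤ K ^ 2 := by nlinarith
    refine h5.trans ?_
    exact le_self_pow₀ (by nlinarith) (by omega)
  rw [h1, le_div_iff₀ (by positivity)]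
  calc 128 * T ^ 4 * (k.factorial : ℝ) * 4 ^ k = K * T ^ 4 := by rw [hK]; ring
    _ ≤ (K ^ 2) ^ k * ((T ^ ε) ^ 2) ^ k := by
        apply mul_le_mul h3 h2 (by positivity) (by positivity)

theorem TAI : TAI_stmt := by
  intro ε hε
  obtain ⟨K, hK1, hK⟩ := TAI_exp ε hε
  refine ⟨K, hK1, ?_⟩
  intro T hT f hf hb
  have hT0 : 0 < T := by linarith
  set S : ℝ := K * T ^ ε with hS
  have hS0 : 0 ≤ S := by positivity
  have hexp := hK T hT
  have hgi4 : Integrable (fun s : ℝ => Real.exp (-(1 / 4) * s ^ 2)) :=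
    integrable_exp_neg_mul_sq (by norm_num)
  have hgi2 : Integrable (fun s : ℝ => Real.exp (-(1 / 2) * s ^ 2)) :=
    integrable_exp_neg_mul_sq (by norm_num)
  have hint : Integrable (fun s => f s * gs s) := by
    refine Integrable.mono' (hgi2.const_mul (T ^ 4)) (hf.mul TAI_gs_cont).aestronglyMeasurable ?_
    refine Filter.Eventually.of_forall fun s => ?_
    rw [Real.norm_eq_abs, abs_of_nonneg (mul_nonneg (hb s).1 (TAI_gs_nonneg s))]
    have h1 : Real.exp (-(s ^ 2 / 2)) = Real.exp (-(1 / 2) * s ^ 2) := by congr 1; ring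
    exact mul_le_mul (hb s).2 (h1 ▸ TAI_gs_le s) (TAI_gs_nonneg s) (by positivity)
  refine ⟨hint, ?_⟩
  have hpt : ∀ s, f s * gs s ≤ (Set.Ioc (-S) S).indicator (fun s => f s * gs s) s +
      (T ^ 4 * Real.exp (-(S ^ 2 / 4))) * Real.exp (-(1 / 4) * s ^ 2) := by
    intro s
    by_cases hs : s ∈ Set.Ioc (-S) S
    · rw [Set.indicator_of_mem hs]
      have : 0 ≤ (T ^ 4 * Real.exp (-(S ^ 2 / 4))) * Real.exp (-(1 / 4) * s ^ 2) := by positivity
      linarith
    · rw [Set.indicator_of_notMem hs, zero_add]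
      have hs2 : S ^ 2 ≤ s ^ 2 := by
        rw [Set.mem_Ioc, not_and_or] at hs
        rcases hs with hs | hs
        · have : s ≤ -S := not_lt.1 hs
          nlinarith
        · have : S < s := not_le.1 hs
          nlinarith
      rw [mul_assoc, ← Real.exp_add]
      apply mul_le_mul (hb s).2 _ (TAI_gs_nonneg s) (by positivity)
      refine (TAI_gs_le s).trans (Real.exp_le_exp.2 ?_)
      linarith
  have hindi : Integrable ((Set.Ioc (-S) S).indicator (fun s => f s * gs s)) :=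
    hint.indicator measurableSet_Ioc
  have hI := integral_mono hint (hindi.add (hgi4.const_mul (T ^ 4 * Real.exp (-(S ^ 2 / 4))))) hpt
  have h1 : ∫ s, ((Set.Ioc (-S) S).indicator (fun s => f s * gs s) +
      fun s => (T ^ 4 * Real.exp (-(S ^ 2 / 4))) * Real.exp (-(1 / 4) * s ^ 2)) s =
      (∫ s in (-S)..S, f s * gs s) + (T ^ 4 * Real.exp (-(S ^ 2 / 4))) * Real.sqrt (Real.pi / (1 / 4)) := by
    rw [integral_add' hindi (hgi4.const_mul _), integral_indicator measurableSet_Ioc,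
      intervalIntegral.integral_of_le (by linarith), integral_const_mul, integral_gaussian]
  rw [h1] at hI
  refine hI.trans ?_
  have h2 : Real.sqrt (Real.pi / (1 / 4)) ≤ 4 := by
    rw [Real.sqrt_le_left (by norm_num)]
    nlinarith [Real.pi_lt_four]
  have h3 : T ^ 4 * Real.exp (-(S ^ 2 / 4)) ≤ 1 / 128 := by
    rw [Real.exp_neg, ← div_eq_mul_inv, div_le_iff₀ (Real.exp_pos _)]
    linarith
  have h4 : (T ^ 4 * Real.exp (-(S ^ 2 / 4))) * Real.sqrt (Real.pi / (1 / 4)) ≤ 1 / 128 * 4 :=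
    mul_le_mul h3 h2 (Real.sqrt_nonneg _) (by norm_num)
  linarith

end Pool.Agent.LW
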